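import Pool.Agent.Helper15.An.Stab

/-! Project AK, the sign reversing involution (helper3_AK, section 2).

A word `w = u_T x_{j_{T-1}}^{s_{T-1}} u_{T-1} ... x_{j_0}^{s_0} u_0` in `K` random even permutations `x_j`
with fixed permutations `u_t` in between; `2 r` distinct points `c (i, false) = a_i`,
`c (i, true) = b_i`.  The pass `(p, t)` is the passage of the trajectory of `c p` over the letter
number `t`; its edge is the pair (generator `j_t`, tail), the tail being the argument of `x_{j_t}`
on this edge.  `MM x`: for every `i` and `t` one of the two passes `((i, false), t)`, `((i, true), t)`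
uses an edge which is used by another pass as well. -/

set_option linter.unusedVariables false

namespace Pool.Agent.Helper6.AK

open Equiv Pool.Agent.Helper15.An

variable {n K r : ℕ}

/-- partial products of the word -/
def zz (x : Fin K → Perm (Fin n)) (u : ℕ → Perm (Fin n)) (j : ℕ → Fin K) (s : ℕ → Bool) :
    ℕ → Perm (Fin n)
  | 0 => 1
  | t + 1 => (if s t then x (j t) else (x (j t))⁻¹) * u t * zz x u j s t

/-- the tail of the edge used at time `t` by the trajectory of the point `v` -/
def tl (x : Fin K → Perm (Fin n)) (u : ℕ → Perm (Fin n)) (j : ℕ → Fin K) (s : ℕ → Bool)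
    (t : ℕ) (v : Fin n) : Fin n :=
  if s t then u t (zz x u j s t v) else zz x u j s (t + 1) v

/-- the edge of the pass `(p, t)` is used by another pass -/
def Multi (T : ℕ) (c : Fin r × Bool → Fin n) (x : Fin K → Perm (Fin n)) (u : ℕ → Perm (Fin n))
    (j : ℕ → Fin K) (s : ℕ → Bool) (p : Fin r × Bool) (t : ℕ) : Prop :=
  ∃ (q : Fin r × Bool) (t' : ℕ), t' < T ∧ (q, t') ≠ (p, t) ∧ j t' = j t ∧
    tl x u j s t' (c q) = tl x u j s t (c p)

/-- at every time every pair has a pass over a multiple edge -/
def MM (T : ℕ) (c : Fin r × Bool → Fin n) (x : Fin K → Perm (Fin n)) (u : ℕ → Perm (Fin n))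
    (j : ℕ → Fin K) (s : ℕ → Bool) : Prop :=
  ∀ i : Fin r, ∀ t < T, ∃ e : Bool, Multi T c x u j s (i, e) t

/-- the factor of the pair number `i` -/
def Dd (c : Fin r × Bool → Fin n) (w : Perm (Fin n)) (i : Fin r) : ℝ :=
  (if w (c (i, false)) = c (i, false) then 1 else 0) +
  (if w (c (i, true)) = c (i, true) then 1 else 0) -
  (if w (c (i, false)) = c (i, true) then 1 else 0) -
  (if w (c (i, true)) = c (i, false) then 1 else 0)

/-- the pass whose tail the pass `(p, t)` has after the exchange at `(i, t₀)` -/
def exq (s : ℕ → Bool) (i : Fin r) (t₀ : ℕ) (p : Fin r × Bool) (t : ℕ) : Fin r × Bool :=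
  if p.1 = i ∧ (t₀ < t ∨ (t₀ = t ∧ s t = false)) then (p.1, !p.2) else p

/-- TRJ, the exchange.  `α, β` are the tails of the passes `((i,false),t₀)`, `((i,true),t₀)`, both
edges are single (`¬ Multi`), `γ, δ` are not tails of passes over `x_{j t₀}`; `x'` is `x` with
`x_{j t₀}` replaced by `x_{j t₀} (α β) (γ δ)`.
Proof.  Induction on `t`.  A pass `(p, t)` over `x_{j t₀}` other than the two has a tail different
from `α, β, γ, δ` (single edges), and `x' = x` at that tail, so it arrives at the same point (for
`s t = true`: `x'(tail) = x(tail)`; for `s t = false`: the head `h = u t (zz t (c p))` satisfies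
`x(tail) = h = x'(tail)`, so `x'⁻¹ h = tail`).  At time `t₀`: if `s t₀ = true` then
`x'(α) = x(β)`, `x'(β) = x(α)`, the two trajectories exchange their positions at time `t₀ + 1`
(tails not exchanged); if `s t₀ = false` the heads are `x(α)`, `x(β)` and `x'(β) = x(α)`, so
`x'⁻¹(x(α)) = β`: positions at time `t₀ + 1` exchanged and tails exchanged.  For `t > t₀` the
trajectory of `c (i, e)` under `x'` is the one of `c (i, !e)` under `x` (same steps, whose tails are
different from `α, β, γ, δ`). -/
def S_TRJ : Prop := ∀ {n K r : ℕ} (T : ℕ) (c : Fin r × Bool → Fin n) (hc : Function.Injective c)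
    (x : Fin K → Perm (Fin n)) (u : ℕ → Perm (Fin n)) (j : ℕ → Fin K) (s : ℕ → Bool)
    (i : Fin r) (t₀ : ℕ) (ht₀ : t₀ < T) (h1 : ∀ e, ¬ Multi T c x u j s (i, e) t₀)
    (γ δ : Fin n) (hγ : ∀ p t, t < T → j t = j t₀ → tl x u j s t (c p) ≠ γ)
    (hδ : ∀ p t, t < T → j t = j t₀ → tl x u j s t (c p) ≠ δ)
    (x' : Fin K → Perm (Fin n))
    (hx' : x' = Function.update x (j t₀) (x (j t₀) *
      swap (tl x u j s t₀ (c (i, false))) (tl x u j s t₀ (c (i, true))) * swap γ δ)),
    (∀ p t, t ≤ t₀ → zz x' u j s t (c p) = zz x u j s t (c p)) ∧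
    (∀ p t, t₀ < t → t ≤ T → p.1 ≠ i → zz x' u j s t (c p) = zz x u j s t (c p)) ∧
    (∀ e t, t₀ < t → t ≤ T → zz x' u j s t (c (i, e)) = zz x u j s t (c (i, !e))) ∧
    (∀ p t, t < T → tl x' u j s t (c p) = tl x u j s t (c (exq s i t₀ p t)))

/-- INV (uses TRJ).  Proof.  `|Dd| ≤ 2` (at most one of `w a = a`, `w a = b` holds and at most one of
`w b = b`, `w b = a`), so the sum over the `x` with `MM` is at most `2 ^ r` times their number.  The
sum over the other `x` is `0` (`Finset.sum_involution`): for `x` without `MM` let `(t₀, i)` be the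
lexicographically first pair (smallest `t₀`, then smallest `i`) with both passes `((i,e),t₀)` not
`Multi`; `α, β` their tails (different, as `c` is injective and both belong to the same time),
`γ < δ` the two smallest points which are not tails of passes over `x_{j t₀}`: they exist because
there are at most `2 r T ≤ n - 2` such tails; the four points are distinct.  Let `x'` be as in TRJ,
again even.  By TRJ the passes over each generator have the same tails, with the passes permuted
by `(p, t) ↦ (exq p t, t)` (an involution preserving the time and the pair index), so `Multi` of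
`(p, t)` for `x'` is `Multi` of `(exq p t, t)` for `x`; hence `x'` has not `MM`, the same `(t₀, i)`,
the same sets of tails, the same `{α, β}` and `γ, δ`: `x'' = x`.  `x' ≠ x`.  With `w = u_T zz_T`:
`w' (c (i,e)) = w (c (i,!e))` and `w' = w` at the other points, so `Dd` changes its sign at `i` and
is unchanged elsewhere: the terms of `x` and `x'` cancel. -/
def S_INV : Prop := ∀ {n K r : ℕ} (T : ℕ) (hT : 2 * r * T + 2 ≤ n)
    (c : Fin r × Bool → Fin n) (hc : Function.Injective c)
    (u : ℕ → Perm (Fin n)) (j : ℕ → Fin K) (s : ℕ → Bool),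
    |∑ x : Fin K → Alt n, ∏ i, Dd c (u T * zz (fun l => (x l : Perm (Fin n))) u j s T) i| ≤
      2 ^ r * (Nat.card {x : Fin K → Alt n //
        MM T c (fun l => (x l : Perm (Fin n))) u j s} : ℝ)

end Pool.Agent.Helper6.AK
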