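import Pool.Agent.Helper6.AK.DMain

/-! Project AK: the diameter for every fixed `k`, from the gap on tuples. -/

namespace Pool.Agent.Helper6.AK

open Matrix Equiv Filter Topology Pool.Agent.Helper15.An Pool.Agent.Helper6.FixK
  Pool.Agent.Helper6.T5 Pool.Agent.Helper6.W

/-- the diameter from the gap for all exponents below the critical one -/
theorem diam_final (hconj : S_CONJ) (k : ℕ) (hk : 2 ≤ k)
    (h : ∀ α : ℝ, α < 1 - 2 / 3 * (1 / 2) ^ (k - 2) → WG k α) (δ : ℝ) (hδ : 0 < δ) :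
    Tendsto (fun n : ℕ => (Nat.card {x : Fin k → Alt n //
      SmallDiam x ((n : ℝ) ^ (1 + 2 / 3 * (1 / 2 : ℝ) ^ (k - 2) + δ))} : ℝ) /
      Nat.card (Fin k → Alt n)) atTop (𝓝 1) := by
  have hp0 : (0 : ℝ) < (1 / 2 : ℝ) ^ (k - 2) := by positivity
  have hp1 : (1 / 2 : ℝ) ^ (k - 2) ≤ 1 := pow_le_one₀ (by norm_num) (by norm_num)
  set q : ℝ := (1 / 2 : ℝ) ^ (k - 2) with hq
  set μ : ℝ := min (δ / 2) (1 / 6) with hμ
  have hμ0 : 0 < μ := lt_min (by linarith) (by norm_num)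
  have hμ1 : μ ≤ δ / 2 := min_le_left _ _
  have hμ2 : μ ≤ 1 / 6 := min_le_right _ _
  have h1 := diam_main hconj k hk (1 - 2 / 3 * q - μ) (by linarith) (by linarith)
    (h _ (by linarith)) (δ - μ) (by linarith)
  have h2 : (2 - (1 - 2 / 3 * q - μ) + (δ - μ) : ℝ) = 1 + 2 / 3 * q + δ := by ring
  rw [h2] at h1
  exact h1

end Pool.Agent.Helper6.AK
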