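import Pool.Agent.Helper11.AK.BASE
import Pool.Agent.Helper16.AK.NUMF
import Pool.Agent.Helper19.AK.DP
import Pool.Agent.Helper19.AK.EX
import Pool.Agent.Helper23.AK.TR
import Pool.Agent.Helper25.AK.EXT
import Pool.Agent.Helper31.AK.LMB
import Pool.Agent.Helper32.AK3.CTA
import Pool.Agent.Helper33.AK.LMA
import Pool.Agent.Helper33.AK.STEP
import Pool.Agent.Helper49.AK.XT
import Pool.Agent.Helper50.AK.FL
import Pool.Agent.Helper54.AK.BALL
import Pool.Agent.Helper54.AK.RED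
import Pool.Agent.Helper55.AK.NUMB
import Pool.Agent.Helper56.AK.QRY
import Pool.Agent.Helper58.AK.FR
import Pool.Agent.Helper58.AK.HCT
import Pool.Agent.Helper60.AK.LZ
import Pool.Agent.Helper63.AK.CTB
import Pool.Agent.Helper64.AK.OP
import Pool.Agent.Helper65.AK.PMB
import Pool.Agent.Helper67.AK.RW
import Pool.Agent.Helper67.AK.UR
import Pool.Agent.Helper69.AK.C1
import Pool.Agent.Helper69.AK.FRI
import Pool.Agent.Helper7.AK.ALLK
import Pool.Agent.Helper7.AK.TRJ
import Pool.Agent.Helper23.AK.INV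
import Pool.Agent.Helper70.AK.HB
import Pool.Agent.Helper73.AK.INV
import Pool.Agent.Helper74.AK.CT
import Pool.Agent.Helper77.AK.DET
import Pool.Agent.Helper8.AK.BL
import Pool.Agent.Helper90.AK.DDP
import Pool.Agent.Helper90.AK.RT
import Pool.Agent.Helper93.AK.OPA
import Pool.Agent.Helper85.AK.CONJ
import Pool.Agent.Helper6.AK.DFinal

/-! Project AK: assembly.  For every `k ≥ 2` the random walk on `r`-tuples has a uniform gap for all
`r ≤ n ^ α`, `α < 1 - (2/3) / 2 ^ (k - 2)`, with probability tending to one; and the diameter. -/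

namespace Pool.Agent.Helper6.AK

open Matrix Equiv Filter Topology Pool.Agent.Helper15.An Pool.Agent.Helper6.FixK
  Pool.Agent.Helper6.T5 Pool.Agent.Helper6.W

/-- the gap on tuples for every number of generators -/
theorem allk_proved : Pool.Agent.Helper3.AK.S_ALLK := by
  have fri : Pool.Agent.Helper3.AK.S_FRI := Pool.Agent.Helper3.AK.fri
  have fr : Pool.Agent.Helper3.AK.S_FR := Pool.Agent.Helper3.AK.fr fri
  have tr : Pool.Agent.Helper3.AK.S_TR := Pool.Agent.Helper3.AK.tr fr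
  have ddp : Pool.Agent.Helper3.AK.S_DDP := Pool.Agent.Helper90.AK.ddp
  have inv : Pool.Agent.Helper3.AK.S_INV :=
    Pool.Agent.Helper3.AK.inv (Pool.Agent.Helper23.AK.thm Pool.Agent.Helper7.AKTRJ.thm)
  have red : Pool.Agent.Helper3.AK.S_RED := Pool.Agent.Helper54.AK.red
  have lz : Pool.Agent.Helper3.AK.S_LZ := Pool.Agent.Helper60.AK.LZ.lz
  have ur : Pool.Agent.Helper3.AK.S_UR := Pool.Agent.Helper67.AK.ur lz
  have opa : Pool.Agent.Helper3.AK.S_OPA := Pool.Agent.Helper93.AKOPA.opa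
  have op : Pool.Agent.Helper3.AK.S_OP := Pool.Agent.Helper64.AK.op opa
  have ex : Pool.Agent.Helper3.AK.S_EX := Pool.Agent.Helper19.AK.ex lz
  have cta : Pool.Agent.Helper3.AK.S_CTA := Pool.Agent.Helper32.AK3.cta
  have ctb : Pool.Agent.Helper3.AK.S_CTB := Pool.Agent.Helper3.AK.ctb
  have ct : Pool.Agent.Helper3.AK.S_CT := Pool.Agent.Helper3.AK.ct cta ctb
  have fl : Pool.Agent.Helper3.AK.S_FL := Pool.Agent.Helper3.AK.fl tr ddp inv op ex ct
  have numf : Pool.Agent.Helper3.AK.S_NUMF := Pool.Agent.Helper3.AK.numf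
  have step : Pool.Agent.Helper3.AK.S_STEP := Pool.Agent.Helper3.AK.step red ur fl numf
  have rw' : Pool.Agent.Helper3.AK.S_RW := Pool.Agent.Helper67.AK.rw
  have ext : Pool.Agent.Helper3.AK.S_EXT := Pool.Agent.Helper3.AK.ext
  have qry : Pool.Agent.Helper3.AK.S_QRY := Pool.Agent.Helper56.AK.qry ext
  have xt : Pool.Agent.Helper3.AK.S_XT := Pool.Agent.Helper3.AK.xt qry
  have c1 : Pool.Agent.Helper3.AK.S_C1 := Pool.Agent.Helper3.AK.c1
  have lma : Pool.Agent.Helper3.AK.S_LMA := Pool.Agent.Helper3.AK.lma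
  have lmb : Pool.Agent.Helper3.AK.S_LMB := Pool.Agent.Helper3.AK.lmb lma
  have det : Pool.Agent.Helper3.AK.S_DET := Pool.Agent.Helper77.AK.det
  have ball : Pool.Agent.Helper3.AK.S_BALL := Pool.Agent.Helper54.AK.Ball.ball
  have hct : Pool.Agent.Helper3.AK.S_HCT := Pool.Agent.Helper3.AK.hct
  have rt : Pool.Agent.Helper3.AK.S_RT := Pool.Agent.Helper90.AK.rt
  have hb : Pool.Agent.Helper3.AK.S_HB := Pool.Agent.Helper70.AK.hb hct rt
  have dp : Pool.Agent.Helper3.AK.S_DP := Pool.Agent.Helper19.AK.dp c1 det ball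
  have pmb : Pool.Agent.Helper3.AK.S_PMB := Pool.Agent.Helper3.AK.pmb xt c1 lmb hb dp
  have numb : Pool.Agent.Helper3.AK.S_NUMB := Pool.Agent.Helper3.AK.numb pmb
  have bl : Pool.Agent.Helper3.AK.S_BL := Pool.Agent.Helper3.AK.bl rw' tr ddp inv
  have base : Pool.Agent.Helper3.AK.S_BASE := Pool.Agent.Helper11.AK.base red numb bl
  exact Pool.Agent.Helper3.AK.allk base step

/-- the same in the notation of the diameter part -/
theorem wg_all (k : ℕ) (hk : 2 ≤ k) (α : ℝ) (hα : α < 1 - 2 / 3 * (1 / 2) ^ (k - 2)) : WG k α := by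
  have h : (2 : ℝ) / 3 / 2 ^ (k - 2) = 2 / 3 * (1 / 2) ^ (k - 2) := by
    rw [div_eq_mul_inv, one_div, inv_pow]
  obtain ⟨ε, hε, hw⟩ := allk_proved k hk α (by rw [h]; exact hα)
  exact ⟨ε, hε, hw⟩

/-- the diameter for every number of generators -/
theorem diam_all (k : ℕ) (hk : 2 ≤ k) (δ : ℝ) (hδ : 0 < δ) :
    Tendsto (fun n : ℕ => (Nat.card {x : Fin k → Alt n //
      SmallDiam x ((n : ℝ) ^ (1 + 2 / 3 * (1 / 2 : ℝ) ^ (k - 2) + δ))} : ℝ) /
      Nat.card (Fin k → Alt n)) atTop (𝓝 1) :=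
  diam_final Pool.Agent.Helper85.AK.thm k hk (wg_all k hk) δ hδ

end Pool.Agent.Helper6.AK
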