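import Pool.Agent.Helper6.W.LogNat
import Pool.Agent.Helper6.T5.Cls
import Pool.Agent.Helper6.T5.Word

/-! Project AK, part D: the diameter for EVERY fixed number `k` (at least two) of random elements.

Main line.  `E = EcS n S`, `S` about `n ^ (1 - e)`: even permutations `u` with a long cycle (length `M`,
`n - S <= M <= n - S / 2`) and a second cycle of length `s > (n - M) / 2` not dividing `M`; then
`u ^ M` moves between `S / 4` and `S` points.  `E` has density at least `S / (8 n)` (CMS, CEC, POW).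
Second moment over the words `y z ^ j`, `j < J = n ^ (2 e)`, `y = x_0`, `z = x_1` (SM, with the
character bound CHR and the count FIXP of the fixed points of the powers of `z`): HIT.
So some `c_0 = (y z ^ j) ^ M` of length at most `n J` has support about `n ^ (1 - e)`.
Commutators with conjugates of `c_0` by SHORT words (NU) divide the support by about `n ^ e` (STEP),
a bounded number of steps (DESC) leads to `c` with support `m`, `n ^ (α - 3 e) <= m <= n ^ α`.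
By the gap on `m`-tuples all conjugates of `c` are short (CONJ), so are all products of two
disjoint `t`-cycles, `t = m / 3` (TT), and all `(2 t - 1)`-cycles (CYC); every even permutation is
a product of about `n / t` such cycles (`sort_log`): FIN.  Total `n ^ (2 - α + δ)`. -/

set_option linter.unusedSectionVars false

namespace Pool.Agent.Helper6.AK

open Matrix Equiv Filter Topology Pool.Agent.Helper15.An Pool.Agent.Helper6.FixK
  Pool.Agent.Helper6.T5 Pool.Agent.Helper6.W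
open scoped ComplexOrder

variable {n : ℕ}

/-- even permutations with a cycle of length `M` and a cycle of length `s` -/
noncomputable def CycMS (n M s : ℕ) : Finset (Alt n) := by
  classical
  exact Finset.univ.filter fun u : Alt n =>
    M ∈ (u : Perm (Fin n)).cycleType ∧ s ∈ (u : Perm (Fin n)).cycleType

/-- the class used for the hitting argument: a cycle of length `M` with
`n - S ≤ M ≤ n - S / 2` and a cycle of length `s > (n - M) / 2` which does not divide `M` -/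
noncomputable def EcS (n S : ℕ) : Finset (Alt n) := by
  classical
  exact Finset.univ.filter fun u : Alt n => ∃ M s : ℕ, n ≤ M + S ∧ 2 * M + S ≤ 2 * n ∧
    n < M + 2 * s ∧ M + s + 2 ≤ n ∧ ¬ s ∣ M ∧
    M ∈ (u : Perm (Fin n)).cycleType ∧ s ∈ (u : Perm (Fin n)).cycleType

/-- a probability weight on permutations which is nearly uniform on pairs of points -/
structure NU (κ : Perm (Fin n) → ℝ) : Prop where
  nonneg : ∀ g, 0 ≤ κ g
  sum : ∑ g, κ g = 1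
  one : ∀ u v : Fin n,
    |∑ g ∈ Finset.univ.filter (fun g : Perm (Fin n) => g u = v), κ g - 1 / n| ≤ 1 / (n : ℝ) ^ 3
  two : ∀ u u' v v' : Fin n, u ≠ u' →
    ∑ g ∈ Finset.univ.filter (fun g : Perm (Fin n) => g u = v ∧ g u' = v'), κ g ≤ 2 / (n : ℝ) ^ 2

/-- with high probability there is a uniform gap on the `r`-tuples, `r ≤ n ^ α` -/
def WG (k : ℕ) (α : ℝ) : Prop := ∃ ε : ℝ, 0 < ε ∧
  Tendsto (fun n : ℕ => (Nat.card {x : Fin k → Alt n // ∀ r : ℕ, (r : ℝ) ≤ (n : ℝ) ^ α →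
    TupleGap x r ε} : ℝ) / Nat.card (Fin k → Alt n)) atTop (𝓝 1)

/-- CMS.  Density of the permutations with cycles of lengths `M` and `s`.
Proof.  `M > n / 2`, so `u` has exactly one cycle of length `M`; the other cycles lie in `n - M`
points and `2 s > n - M`, `s < M`, so exactly one cycle has length `s`.  Count the triples
`(u, p, q)`, `u` in the set, `p` in the `M`-cycle, `q` in the `s`-cycle: `card * (M * s)`.  For
fixed `p /= q` (there are `n (n-1)` pairs): `u` is determined by the distinct points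
`a_i = u^i p` (`i < M`), `b_j = u^j q` (`j < s`), `a_0 = p`, `b_0 = q`, and the values on the other
points: there are `(n-2)! / (n-M-s)!` choices of the other `a_i, b_j`, and the even `u` with
`u a_i = a_{i+1}`, `u b_j = b_{j+1}` (cyclically) form a coset of the even permutations fixing the
`M + s ≤ n - 2` points, `(n-M-s)! / 2` of them.  Total `n (n-1) (n-2)! / 2 = n! / 2`. -/
def S_CMS : Prop := ∀ {n : ℕ} {M s : ℕ} (hs : 2 ≤ s) (hM : n < 2 * M) (hs2 : n < M + 2 * s)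
    (h : M + s + 2 ≤ n),
    (CycMS n M s).card * (M * s) = Fintype.card (Alt n)

/-- CEC (uses CMS).  Proof.  The sets `CycMS n M s` for different pairs `(M, s)` satisfying the
inequalities are disjoint (`M` is the length of the longest cycle and `s` the length of the longest
of the others), and `EcS` is their union over the pairs with `s` not dividing `M`.  `M` takes at
least `S / 2` values.  For fixed `M` put `R = n - M`, `S / 2 ≤ R ≤ S`; the integers `s` with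
`R / 2 < s ≤ R - 2` are at least `R / 2 - 2`, and at most `2 n / S + 1` of them divide `M`
(`M / s` is an integer in `[M / R, 2 M / R)`, an interval of length `M / R ≤ 2 n / S`).  Since
`S ≥ 64` and `S ^ 2 ≥ 64 n` at least `R / 4` values of `s` remain (`R / 4 ≥ 3 + 2 n / S`).  By CMS
`card = sum |Alt| / (M s) ≥ |Alt| (S / 2) (R / 4) / (n R) = |Alt| S / (8 n)`. -/
def S_CEC : Prop := ∀ {n : ℕ} {S : ℕ} (h1 : 64 ≤ S) (h2 : 64 * n ≤ S ^ 2) (h3 : 4 * S ≤ n),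
    S * Fintype.card (Alt n) ≤ 8 * n * (EcS n S).card

/-- POW.  Proof.  Let `M, s` be as in the definition.  `u ^ M` fixes every point of the cycle of
length `M`, so its support has at most `n - M ≤ S` points; it moves every point of the cycle of
length `s` because `s` does not divide `M`, so the support has at least `s` points and
`4 s > 2 (n - M) ≥ S`. -/
def S_POW : Prop := ∀ {n : ℕ} {S : ℕ} (u : Alt n) (hu : u ∈ EcS n S),
    ∃ M : ℕ, M ≤ n ∧
    S ≤ 4 * ((u : Perm (Fin n)) ^ M).support.card ∧ ((u : Perm (Fin n)) ^ M).support.card ≤ S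

/-- SM, second moment over `y z ^ j`.  Notation: `A = Alt n`, `G = Perm (Fin n)`, `φ` the
indicator of `E` on `G`, a class function of `G` supported on `A`.
Proof.  (1) For `ζ = z ^ m`, `0 < m < J` (also for `ζ⁻¹`):
`∑_{u ∈ A} φ(u) φ(u ζ) ≤ |E| ^ 2 / |A| + η |E|`.  By `four_class` (T5/Hit) `four (ρ i) φ` is a scalar
`c i`, with `c i * D i = ∑_u φ(u) χ_i(u)`; translation by `ζ` multiplies the Fourier coefficient
by `ρ i ζ` (or its inverse), so by `parseval` (as in T5/Hit.lean, `miss_count`)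
`|G| * ∑ φ(u) φ(u ζ) = ∑_i D_i |c_i| ^ 2 Re χ_i(ζ)` (up to the normalisation used in `parseval`) and
`|G| * |E| = ∑_i D_i ^ 2 |c_i| ^ 2`.  For `i` trivial on `A`: `D_i = 1` (irreducible and trivial on
`A`, the group `G / A` has two elements), `χ_i(ζ) = 1`, `|c_i| ≤ |E|`, and there are at most
`|G| / |A|` of them (`sum_dim_sq_triv_le`); for the other `i`, `|χ_i(ζ)| ≤ η D_i`.
(2) `N(y) = #{j < J : y z ^ j ∈ E}`, `p = |E| / |A|`: `∑_y N(y) = J |E|` and, substituting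
`u = y z ^ j`, `∑_y N(y) ^ 2 = ∑_{j,j'} ∑_u φ(u) φ(u z ^ (j' - j)) ≤ J |E| + J ^ 2 (|E|^2/|A| + η |E|)`.
So `∑_y (N(y) - J p) ^ 2 ≤ J |E| + J ^ 2 η |E|`; on `B` the summand is `J ^ 2 |E| ^ 2 / |A| ^ 2`. -/
def S_SM : Prop := ∀ {n : ℕ} (F : PW (Perm (Fin n))) (hn : 2 ≤ n) (z : Alt n) (J : ℕ) (hJ : 0 < J) (η : ℝ)
    (hη : 0 ≤ η) (hχ : ∀ i, ¬ Triv (F.ρ i) (Alt n) → ∀ m : ℕ, 0 < m → m < J →
      ‖trace (F.ρ i ((z : Perm (Fin n)) ^ m))‖ ≤ η * F.D i)
    (E : Finset (Alt n)) (hcl : ∀ (σ : Perm (Fin n)) (g h : Alt n),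
      (h : Perm (Fin n)) = σ * g * σ⁻¹ → g ∈ E → h ∈ E)
    (B : Finset (Alt n)) (hB : ∀ y ∈ B, ∀ j < J, y * z ^ j ∉ E),
    (B.card : ℝ) * E.card ≤ (Fintype.card (Alt n) : ℝ) ^ 2 * (1 / J + η)

/-- CHR.  Proof.  `L = log n`, `R = ⌈200 L ^ 2⌉` (any large constant).  If `¬ HasFix (F.ρ i) (stab n R)`
use `char_bound_mat` (Helper15/An/CharMat) with `r = R`, `J = ⌈L⌉ + 1`: `10 √n < n`, and
`2 n ^ (12 J) (7/8) ^ (R+1) + 2 ^ (-J) ≤ n ^ (-1/4)` for large `n` (`log (8/7) > 0.13`, `log 2 > 0.69`;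
enlarge the constant 200 if needed).  Otherwise `exists_level` (FixK/Levels) gives `0 < r ≤ R` with
`HasFix (stab n r)` and `¬ HasFix (stab n (r-1))`, and `char_bound_level` (FixK/Level):
`|χ(g)| ≤ D (2 √n / n + 14 √(R / n)) ^ r`; the base is at most `n ^ (-1/4) ≤ 1` for large `n`, and
`r ≥ 1`. -/
def S_CHR : Prop :=
    ∀ᶠ n : ℕ in atTop, ∀ (F : PW (Perm (Fin n))) (i : Fin F.c),
    ¬ Triv (F.ρ i) (Alt n) → ∀ g : Perm (Fin n), (fixc g : ℝ) ^ 2 ≤ n →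
      ‖trace (F.ρ i g)‖ ≤ (n : ℝ) ^ (-(1 / 4) : ℝ) * F.D i

/-- FIXP.  Proof.  It suffices to bound `∑ over Perm (Fin n)` by `m * n!` and `n! = 2 |Alt n|`.
For a point `v` and `1 ≤ d ≤ n` the permutations for which the orbit of `v` has exactly `d` elements
are `(n-1)!` in number (choose the distinct points `z v, z^2 v, ..., z^{d-1} v` and then the
remaining values: `(n-1)(n-2)...(n-d+1) * (n-d)!`).  If `z ^ m v = v` then the size of the orbit
divides `m`, in particular it is one of `1, ..., m`.  So at most `m (n-1)!` permutations for each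
of the `n` points. -/
def S_FIXP : Prop := ∀ {n : ℕ} (hn : 2 ≤ n) (m : ℕ) (hm : 0 < m),
    ∑ z : Alt n, fixc ((z : Perm (Fin n)) ^ m) ≤ 2 * m * Fintype.card (Alt n)

/-- HIT (uses CEC, SM, CHR, FIXP).  Proof.  `A = |Alt n|`.  Call `z` bad if `fixc (z ^ m) > √n` for
some `0 < m < J`; by FIXP and Markov the number of bad `z` is at most
`∑_{m<J} 2 m A / √n ≤ J ^ 2 A / √n`.  For good `z` apply SM with `η = n ^ (-1/4)` (CHR), `E = EcS n S`
(invariant under conjugation since the cycle type is) and `B` the set of `y` with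
`y z ^ j ∉ E` for all `j < J`: `|B| ≤ A ^ 2 (1/J + η) / |E| ≤ A (8 n / S) (1/J + n ^ (-1/4))`.
With `n^(2e) ≤ J ≤ 2 n^(2e)`, `S ≥ n^(1-e)/2`: the sum is at most
`A ^ 2 (4 n^(4e-1/2) + 16 n^e (n^(-2e) + n^(-1/4))) ≤ A ^ 2 * 50 n^(-e)` for `e ≤ 1/12`. -/
def S_HIT : Prop := ∀ (e : ℝ) (he : 0 < e) (he1 : e ≤ 1 / 12),
    ∀ᶠ n : ℕ in atTop,
    (Nat.card {b : Alt n × Alt n // ∀ j < ⌈(n : ℝ) ^ (2 * e)⌉₊,
      b.1 * b.2 ^ j ∉ EcS n ⌊(n : ℝ) ^ (1 - e)⌋₊} : ℝ) ≤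
      (Fintype.card (Alt n) : ℝ) ^ 2 * (50 * (n : ℝ) ^ (-e))

/-- NUL.  Proof.  Let `Ω` be the set of pairs of distinct points (`Fin 2 ↪ Fin n`, `n (n-1)`
elements), `P = (1 + T) / 2` with `T = tupleWalk x 2`, a symmetric operator with `T ≤ 1 - ε` on
functions of sum zero (TupleGap), `T ≥ -1`, so `0 ≤ P ≤ 1 - ε/2` there and
`|P^t(a,b) - 1/(n(n-1))| ≤ (1 - ε/2)^t ≤ n^(-4)` (matrix entry of `P^t - J`, `J` the mean, operator
norm; or use the eigenbasis).  Let `κ` be the law of the product of `t` independent steps, each the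
identity with probability `1/2` and otherwise one of the `2 k` elements `x_i, x_i⁻¹` uniformly
(define it by iterated convolution, `κ_0 = δ_1`, `κ_{t+1}(g) = κ_t(g)/2 + (1/(4k)) ∑_i (κ_t(g x_i) +
κ_t(g x_i⁻¹))`); then `∑_{g : g a = b} κ g = P^t(a,b)` and `κ g ≠ 0` implies that `g` is a word of
length at most `t`.  `two`: for `v /= v'` at most `1/(n(n-1)) + n^(-4) ≤ 2/n^2`, for `v = v'` it is
`0`.  `one`: sum over the `n - 1` possible images of a second point. -/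
def S_NUL : Prop := ∀ {n : ℕ} {k : ℕ} (hk : 0 < k) (hn : 4 ≤ n) (x : Fin k → Alt n) {ε : ℝ} (hε : 0 < ε)
    (hε1 : ε ≤ 1) (hgap : TupleGap x 2 ε) {t : ℕ} (ht : (1 - ε / 2) ^ t ≤ 1 / (n : ℝ) ^ 4),
    ∃ κ : Perm (Fin n) → ℝ, NU κ ∧ ∀ h, κ h ≠ 0 →
      Reach (fun i => (x i : Perm (Fin n))) t h

/-- COMS, the support of a commutator (pure algebra).  `d = h c₀ h⁻¹`.  With `I = supp c ∩ supp d`,
`|I| = A := #{p ∈ supp c₀ : h p ∈ supp c}`.
(upper bound) `supp [c,d] ⊆ I ∪ c I ∪ d I`: let `v` be outside.  If `v ∉ supp d`: `d⁻¹ v = v`,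
`u = c⁻¹ v`; if `v ∉ supp c` then `u = v` and `v` is fixed; if `v ∈ supp c` then `u ∈ supp c` and
`v ∉ c I` gives `u ∉ supp d`, so `d u = u`, `c u = v`.  If `v ∈ supp d` then `v ∉ supp c`;
`u = d⁻¹ v ∈ supp d` and `v ∉ d I` gives `u ∉ supp c`, so `c⁻¹ u = u`, `d u = v`, `c v = v`.
(lower bound) if `v ∈ I` and `d⁻¹ v ∉ supp c` then `c d c⁻¹ d⁻¹ v = c v /= v`; `v = h p` with
`p ∈ supp c₀`, `d⁻¹ v = h c₀⁻¹ p`. -/
def S_COMS : Prop := ∀ {n : ℕ} (c c₀ h : Perm (Fin n)),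
    (c * (h * c₀ * h⁻¹) * c⁻¹ * (h * c₀ * h⁻¹)⁻¹).support.card ≤
      3 * (c₀.support.filter fun p => h p ∈ c.support).card ∧
    (c₀.support.filter fun p => h p ∈ c.support).card ≤
      (c * (h * c₀ * h⁻¹) * c⁻¹ * (h * c₀ * h⁻¹)⁻¹).support.card +
      (c₀.support.filter fun p => h p ∈ c.support ∧ h (c₀⁻¹ p) ∈ c.support).card

/-- STEP (uses COMS).  Proof.  `m = |supp c|`, `m₀ = |supp c₀|`, `μ = m m₀ / n ≥ 1`.  For `h` with law
`κ` put `A = #{p ∈ supp c₀ : h p ∈ supp c}`, `B = #{p ∈ supp c₀ : h p, h c₀⁻¹ p ∈ supp c}`.  By `one`: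
`0.99 μ ≤ E A ≤ 1.01 μ`; by `two`: `E A ^ 2 ≤ E A + 2 μ ^ 2 ≤ 1.01 μ + 2 μ ^ 2 ≤ 3.01 μ ^ 2` and (as
`c₀⁻¹ p /= p` for `p ∈ supp c₀`) `E B ≤ 2 μ m / n`.  So `P(A ≥ μ/4) ≥ (0.99 μ - 0.25 μ)^2 / (3.01 μ^2)
≥ 0.18` (Cauchy-Schwarz), `P(A > 40 μ) ≤ 0.03`, `P(B ≥ μ/8) ≤ 16 m / n ≤ 0.05` (Markov).  Hence some
`h` with `κ h /= 0` has `μ/4 ≤ A ≤ 40 μ`, `B ≤ μ/8`, and COMS gives the two bounds. -/
def S_STEP : Prop := ∀ {n : ℕ} (hn : 10 ≤ n) {κ : Perm (Fin n) → ℝ} (hκ : NU κ) (c c₀ : Perm (Fin n))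
    (h1 : n ≤ c.support.card * c₀.support.card) (h2 : 320 * c.support.card ≤ n),
    ∃ h : Perm (Fin n), κ h ≠ 0 ∧
      c.support.card * c₀.support.card ≤
        8 * n * (c * (h * c₀ * h⁻¹) * c⁻¹ * (h * c₀ * h⁻¹)⁻¹).support.card ∧
      n * (c * (h * c₀ * h⁻¹) * c⁻¹ * (h * c₀ * h⁻¹)⁻¹).support.card ≤
        120 * (c.support.card * c₀.support.card)

/-- DESC (uses STEP).  Proof by induction on `j`.  `j = 0`: `c = c₀`.  From `j` to `j + 1` (note that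
`0 < 1 - (j+2) e` implies the condition for `j`): let `c` be given by `j`, `m = |supp c|`,
`m₀ = |supp c₀|`.  For large `n`: `m m₀ ≥ n^(2 - (j+2) e) / (8 * 64^(j+1)) ≥ n` and
`320 m ≤ 320 * 120^j n^(1 - (j+1) e) ≤ n`.  STEP gives `h` with `κ h /= 0`, so `h` is a word of length
`t`, and `c' = [c, h c₀ h⁻¹]` is a word of length `2 * 4^j (ℓ + 2t) + 2 (ℓ + 2t) ≤ 4^(j+1) (ℓ + 2t)` with
`m m₀ / (8 n) ≤ |supp c'| ≤ 120 m m₀ / n`. -/
def S_DESC : Prop := ∀ (e : ℝ) (he : 0 < e) (j : ℕ) (hj : 0 < 1 - (j + 1) * e),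
    ∀ᶠ n : ℕ in atTop, ∀ (k : ℕ) (x : Fin k → Alt n) (κ : Perm (Fin n) → ℝ) (t ℓ : ℕ), NU κ →
      (∀ h, κ h ≠ 0 → Reach (fun i => (x i : Perm (Fin n))) t h) →
      ∀ c₀ : Perm (Fin n), Reach (fun i => (x i : Perm (Fin n))) ℓ c₀ →
        (n : ℝ) ^ (1 - e) / 8 ≤ c₀.support.card → (c₀.support.card : ℝ) ≤ (n : ℝ) ^ (1 - e) →
        ∃ c : Perm (Fin n), Reach (fun i => (x i : Perm (Fin n))) (4 ^ j * (ℓ + 2 * t)) c ∧
          (n : ℝ) ^ (1 - (j + 1) * e) / 64 ^ (j + 1) ≤ c.support.card ∧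
          (c.support.card : ℝ) ≤ 120 ^ j * (n : ℝ) ^ (1 - (j + 1) * e)

/-- CONJ.  Proof.  Enumerate the support of `c` by `a : Fin s ↪ Fin n`, let `b i = σ (a i)`;
`reach_tuple3` (W/Diam) gives a word `h` of length `2 t` with `h (a i) = σ (a i)`; then
`h c h⁻¹ = σ c σ⁻¹` (both permutations agree: conjugation only depends on the values on the
support).  Reach.mul, Reach.inv. -/
def S_CONJ : Prop := ∀ {n : ℕ} {k : ℕ} (hk : 0 < k) (x : Fin k → Alt n) {s t ℓ : ℕ} {ε : ℝ} (hε : 0 < ε)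
    (hgap : TupleGap x s ε) (ht : (n : ℝ) ^ s < 2 * (1 + ε / 2) ^ t) (c : Perm (Fin n))
    (hc : c.support.card = s) (hℓ : Reach (fun i => (x i : Perm (Fin n))) ℓ c)
    (σ : Perm (Fin n)),
    Reach (fun i => (x i : Perm (Fin n))) (ℓ + 4 * t) (σ * c * σ⁻¹)

/-- TT.  Proof.  Choose `T ⊆ supp c` with `|T| = t` and `T ∩ c T = ∅` (greedy, or `exists_T` of
Helper15/An/Char: a set `T` with `c x ∉ T` for `x ∈ T` and `n ≤ fixc c + 3 |T|`; remove from it the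
fixed points, of which it has none, and shrink it).  Let `σ` be a `t`-cycle with support `T`.  Then
`c σ c⁻¹` is a `t`-cycle with support `c T`, so `g₀ = c σ c⁻¹ σ⁻¹` is a product of two disjoint
`t`-cycles and has the cycle type of `C₁ C₂`; so `C₁ C₂ = π g₀ π⁻¹`
(`Equiv.Perm.isConj_iff_cycleType_eq`).  With `c₁ = π c π⁻¹`, `τ = π σ π⁻¹`:
`C₁ C₂ = c₁ * (τ c₁⁻¹ τ⁻¹) = (π c π⁻¹) * ((τ π) c (τ π)⁻¹)⁻¹`, two conjugates of `c^{±1}`. -/
def S_TT : Prop := ∀ {n : ℕ} {k : ℕ} (x : Fin k → Alt n) {t D : ℕ} (c : Perm (Fin n)) (ht : 2 ≤ t)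
    (hc : 3 * t ≤ c.support.card)
    (hD : ∀ σ : Perm (Fin n), Reach (fun i => (x i : Perm (Fin n))) D (σ * c * σ⁻¹))
    (C₁ C₂ : Perm (Fin n)) (h1 : C₁.IsCycle) (h2 : C₂.IsCycle) (h1t : C₁.support.card = t)
    (h2t : C₂.support.card = t) (hdis : C₁.Disjoint C₂),
    Reach (fun i => (x i : Perm (Fin n))) (2 * D) (C₁ * C₂)

/-- CYC.  Proof.  `C = formPerm L` with `L` a list without repetition of length `2 t - 1`; write
`L = l₁ ++ [a] ++ l₂` with `|l₁| = |l₂| = t - 1`; then `C = formPerm (l₁ ++ [a]) * formPerm (a :: l₂)`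
(induction on `l₁` with `List.formPerm_cons_cons`), a product `C₁ C₃` of two `t`-cycles.  As
`n ≥ 3 t - 1` there is a `t`-cycle `C₂` disjoint from both, and `C = (C₁ C₂) (C₂⁻¹ C₃)`, where
`C₁ C₂` and `C₂⁻¹ C₃` are products of two disjoint `t`-cycles. -/
def S_CYC : Prop := ∀ {n : ℕ} {k : ℕ} (x : Fin k → Alt n) {t D : ℕ} (ht : 2 ≤ t) (hn : 3 * t ≤ n + 1)
    (hD : ∀ C₁ C₂ : Perm (Fin n), C₁.IsCycle → C₂.IsCycle → C₁.support.card = t →
      C₂.support.card = t → C₁.Disjoint C₂ →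
      Reach (fun i => (x i : Perm (Fin n))) D (C₁ * C₂))
    (C : Perm (Fin n)) (hC : C.IsCycle) (hCt : C.support.card + 1 = 2 * t),
    Reach (fun i => (x i : Perm (Fin n))) (2 * D) C

/-- FIN (uses CONJ, TT, CYC and `sort_log` of W/Ingredients).  Proof.  `t₁ = m / 3`, `τ = t₁ - 1`.
CONJ with `s = m`, then TT and CYC: every `(2 τ + 1)`-cycle is a word of length
`4 (ℓ + 4 t)`.  `sort_log` writes `g` as a product of a list of such cycles of length `q₀` with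
`τ q₀ ≤ n + 40 τ (log₂ n + 1)`; `q = q₀ * (4 (ℓ + 4 t))` by `Reach.list_prod`.  Transfer from
permutations to `Alt n` (same list of letters, the coercion is injective). -/
def S_FIN : Prop := ∀ {n : ℕ} {k : ℕ} (hk : 0 < k) (x : Fin k → Alt n) {m t ℓ : ℕ} {ε : ℝ} (hε : 0 < ε)
    (hm : 6 ≤ m) (hmn : m ≤ n) (hgap : TupleGap x m ε) (ht : (n : ℝ) ^ m < 2 * (1 + ε / 2) ^ t)
    (c : Perm (Fin n)) (hc : c.support.card = m)
    (hℓ : Reach (fun i => (x i : Perm (Fin n))) ℓ c) (g : Alt n),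
    ∃ q, (m / 3 - 1) * q ≤ (n + 40 * (m / 3 - 1) * (Nat.log 2 n + 1)) * (4 * (ℓ + 4 * t)) ∧
      Reach x q g

/-- DET (uses POW, NUL, DESC, FIN).  Deterministic conclusion.
Proof.  `e = min (δ/8) (min (1/12) (α/4))`.  Let `N₀` be the integer in the interval
`((1-α+e)/e, (1-α+2e)/e]` (length one), `N₀ ≥ 2`, `j₀ = N₀ - 1`; so
`0 < α - 2e ≤ 1 - (j₀+1) e < α - e`.  `n` large, `x` as in the statement, `u = x_0 x_1^j ∈ E`.
POW: `M ≤ n`, `c₀ = u ^ M`, `S/4 ≤ |supp c₀| ≤ S = ⌊n^(1-e)⌋`, so `n^(1-e)/8 ≤ |supp c₀| ≤ n^(1-e)`;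
`c₀` is a word of length `ℓ₀ = n ⌈n^(2e)⌉ ≥ M (1+j)` (Reach.gen, mul, pow, map).  NUL with
`t₁ = ⌈8 log n / ε⌉` (`(1-ε/2)^t₁ ≤ exp(-ε t₁/2) ≤ n^(-4)`; `2 ≤ n^α`).  DESC with `j = j₀`: `c`, a word
of length `ℓ = 4^j₀ (ℓ₀ + 2 t₁) ≤ n^(1+2e+e)`, `m = |supp c|`, `n^(α-2e)/64^(j₀+1) ≤ m`,
`m ≤ 120^j₀ n^(1-(j₀+1)e) ≤ n^α`.  So `TupleGap x m ε`; `t₂ = ⌈4 m log n / ε⌉ + 1` satisfies
`n^m < 2 (1+ε/2)^t₂` (`log(1+ε/2) ≥ ε/4` as `ε ≤ 1`), and `t₂ ≤ n^(1+e)`.  FIN: with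
`τ = m/3 - 1 ≥ m/6` (`m ≥ 12`), `q ≤ (n/τ + 40 (log₂ n + 1)) * 4 (ℓ + 4 t₂)`,
`n/τ ≤ 6 * 64^(j₀+1) n^(1-α+2e)`, `40 (log₂ n + 1) ≤ n^(1-α)`, so `q ≤ n^(2-α+6e) ≤ n^(2-α+δ)` for large
`n` (the constants are absorbed by `n^e`). -/
def S_DET : Prop := ∀ (k : ℕ) (hk : 2 ≤ k) (α : ℝ) (hα0 : 0 < α) (hα1 : α < 1) (ε : ℝ) (hε : 0 < ε)
    (hε1 : ε ≤ 1) (δ : ℝ) (hδ : 0 < δ),
    ∃ e : ℝ, 0 < e ∧ e ≤ 1 / 12 ∧
    ∀ᶠ n : ℕ in atTop, ∀ x : Fin k → Alt n,
      (∀ r : ℕ, (r : ℝ) ≤ (n : ℝ) ^ α → TupleGap x r ε) →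
      (∃ j < ⌈(n : ℝ) ^ (2 * e)⌉₊, x ⟨0, by omega⟩ * x ⟨1, by omega⟩ ^ j ∈
        EcS n ⌊(n : ℝ) ^ (1 - e)⌋₊) →
      SmallDiam x ((n : ℝ) ^ (2 - α + δ))

/-- DIAM (uses DET, HIT).  Proof.  Let `ε` be given by `WG` (one may decrease it to at most `1`: the
right side `(1 - ε) ∑ φ^2` increases).  DET gives `e`.  The tuples `x` without small diameter are
either without the gap, a fraction tending to `0`, or `(x_0, x_1)` is in the exceptional set of
HIT, a fraction at most `50 n^(-e)` (the number of `x` with `(x_0, x_1)` in a set of `Q` pairs is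
`Q |Alt|^(k-2)`).  Squeeze. -/
def S_DIAM : Prop := ∀ (k : ℕ) (hk : 2 ≤ k) (α : ℝ) (hα0 : 0 < α) (hα1 : α < 1) (h : WG k α) (δ : ℝ)
    (hδ : 0 < δ),
    Tendsto (fun n : ℕ => (Nat.card {x : Fin k → Alt n // SmallDiam x ((n : ℝ) ^ (2 - α + δ))} : ℝ) /
      Nat.card (Fin k → Alt n)) atTop (𝓝 1)

end Pool.Agent.Helper6.AK
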