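import Pool.Agent.Helper93.AK.CMS
import Pool.Agent.Helper73.AK.CEC
import Pool.Agent.Helper74.AK.POW
import Pool.Agent.Helper99.AK.SM
import Pool.Agent.Helper91.AK.CHR
import Pool.Agent.Helper40.AK.FIXP
import Pool.Agent.Helper16.AK.HIT
import Pool.Agent.Helper42.AK.NearUniform
import Pool.Agent.Helper32.AK.COMS
import Pool.Agent.Helper8.AK.STEP
import Pool.Agent.Helper60.AK.DESC
import Pool.Agent.Helper80.AK.TT
import Pool.Agent.Helper80.AK.CYC
import Pool.Agent.Helper73.AK.FIN
import Pool.Agent.Helper62.AK.DET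
import Pool.Agent.Helper80.AK.DIAM

/-! Project AK, assembly of part D (the diameter), from the packets. -/

namespace Pool.Agent.Helper6.AK

/-- the diameter from the gap on `n ^ α`-tuples -/
theorem diam_main (hconj : S_CONJ) : S_DIAM := by
  have hcec : S_CEC := Pool.Agent.Helper73.AK.thm Pool.Agent.Helper93.AKCMS.thm
  have hhit : S_HIT := Pool.Agent.Helper16.AK.HIT.thm hcec Pool.Agent.Helper99.AK.SM.thm
    Pool.Agent.Helper91.AK.thm Pool.Agent.Helper40.AK.FIXP.thm
  have hstep : S_STEP := Pool.Agent.Helper8.AK.thm Pool.Agent.Helper32.AK.thm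
  have hdesc : S_DESC := Pool.Agent.Helper60.AK.DESC.thm hstep
  have hfin : S_FIN := Pool.Agent.Helper73.AK.Fin.thm hconj Pool.Agent.Helper80.AK.thm
    Pool.Agent.Helper80.AK.Cyc.thm
  have hdet : S_DET := Pool.Agent.Helper62.AKDET.thm Pool.Agent.Helper74.AKPow.thm
    Pool.Agent.Helper42.AK.thm hdesc hfin
  exact Pool.Agent.Helper80.AK.Dia.thm hdet hhit

end Pool.Agent.Helper6.AK
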